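import Pool.Agent.R326.RS.Final

/-!
# Averages of random convex sets with a small common expectation need not be small
-/

set_option autoImplicit false

namespace Pool.Agent.Results.MP_b91784_pr.SmallExpectation

open MeasureTheory Filter Topology
open Pool.Agent.R326.RS

theorem result : ∃ (X : Type) (_ : NormedAddCommGroup X) (_ : InnerProductSpace ℝ X)
    (_ : CompleteSpace X), BConvex X ∧ ∃ ε : ℝ, 0 < ε ∧ ∀ δ : ℝ, 0 < δ →
    ∃ (Ω : Type) (_ : MeasurableSpace Ω) (μ : Measure Ω) (_ : IsProbabilityMeasure μ)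
      (Ψ : ℕ → Ω → BC X) (U : BC X), IndepWithExpectation μ Ψ U ∧
      (∀ x ∈ U.carrier, ‖x‖ ≤ δ) ∧ (∀ n ω, ∀ x ∈ (Ψ n ω).carrier, ‖x‖ ≤ 1) ∧
      ∀ ω, ENNReal.ofReal ε < limsup (fun n => ⨆ a ∈ avg Ψ n ω, ‖a‖ₑ) atTop :=
  no_small

end Pool.Agent.Results.MP_b91784_pr.SmallExpectation
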